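import Mathlib

/-!
# Smallest singular value of smoothed subspace monomial matrices

For every degree `d ≥ 2` and every `δ < 1 - 2^(1-d)` the asserted lower bound fails: with `s = 2`
blocks and `t = n/2 + 1` the two subspaces meet, and the `d`-th power of a common linear form is a
linear combination of the columns of either block.
-/

namespace Pool.Agent.Results.MP_21e226_pr.CommonPower

open MeasureTheory ProbabilityTheory

/-- The linear form `⟨v, x⟩ = ∑ k, v k * x k` as a polynomial in `x₁, …, xₙ`. -/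
noncomputable def linForm {n : ℕ} (v : EuclideanSpace ℝ (Fin n)) : MvPolynomial (Fin n) ℝ :=
  ∑ k, MvPolynomial.C (v k) * MvPolynomial.X k

/-- The matrix `M`.  Rows are indexed by the degree-`d` monomials in `n` variables, columns by a
block `i` and a degree-`d` monomial in `t` variables; monomials of degree `d` are given as multisets
of `d` indices.  The column `(i, c)` is the coefficient vector of `∏ j ∈ c, ℓ i j`. -/
noncomputable def monMatrix {n t s : ℕ} (d : ℕ) (v : Fin s → Fin t → EuclideanSpace ℝ (Fin n)) :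
    Matrix (Sym (Fin n) d) (Fin s × Sym (Fin t) d) ℝ :=
  fun r c => MvPolynomial.coeff (Multiset.toFinsupp (r : Multiset (Fin n)))
    (((c.2 : Multiset (Fin t)).map (fun j => linForm (v c.1 j))).prod)

/-- The `k`-th largest singular value (`k ≥ 1`) of a real matrix. -/
noncomputable def sigma {ι κ : Type*} [Fintype ι] [Fintype κ] [DecidableEq κ] (k : ℕ)
    (M : Matrix ι κ ℝ) : ℝ :=
  (Matrix.toEuclideanLin M).singularValues (k - 1)

/-- Gram-Schmidt orthonormalisation of the columns of `P i + G i`, block by block. -/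
noncomputable def frame {n t s : ℕ} (P : Fin s → Fin t → EuclideanSpace ℝ (Fin n))
    (G : Fin s → Fin t → Fin n → ℝ) : Fin s → Fin t → EuclideanSpace ℝ (Fin n) :=
  fun i => InnerProductSpace.gramSchmidtNormed ℝ (fun j => P i j + WithLp.toLp 2 (G i j))

/-- The law of the perturbations: `s` independent `n × t` matrices with independent
`N(0, ρ²/n)` entries (`G i j` is the `j`-th column of the `i`-th matrix). -/
noncomputable def gaussianLaw (n t s : ℕ) (ρ : ℝ) : Measure (Fin s → Fin t → Fin n → ℝ) :=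
  Measure.pi fun _ => Measure.pi fun _ => Measure.pi fun _ =>
    gaussianReal 0 (Real.toNNReal (ρ ^ 2 / n))

/-- The assertion of the problem for given constants `d` and `δ`. -/
def SmoothedBound (d : ℕ) (δ : ℝ) : Prop :=
  ∃ C : ℝ, ∀ ε : ℝ, 0 < ε → ∃ n₀ : ℕ, ∀ n t s : ℕ, n₀ ≤ n → 1 ≤ t → t ≤ n → 1 ≤ s →
    ((s * (t + d - 1).choose d : ℕ) : ℝ) ≤ (1 - δ) * ((n + d - 1).choose d : ℕ) →
    ∀ ρ : ℝ, 0 < ρ → ρ ≤ 1 → ∀ P : Fin s → Fin t → EuclideanSpace ℝ (Fin n),
      (∀ i, Orthonormal ℝ (P i)) →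
      1 - ε ≤ (gaussianLaw n t s ρ).real
        {G | (ρ / n) ^ C ≤ sigma (s * (t + d - 1).choose d) (monMatrix d (frame P G))}

/-! ### Linear dependence of the columns -/

lemma linForm_smul {n : ℕ} (a : ℝ) (v : EuclideanSpace ℝ (Fin n)) :
    linForm (a • v) = MvPolynomial.C a * linForm v := by
  simp [linForm, Finset.mul_sum, mul_assoc]

lemma linForm_zero {n : ℕ} : linForm (0 : EuclideanSpace ℝ (Fin n)) = 0 := by
  simp [linForm]

lemma linForm_sum {n : ℕ} {ι : Type*} (s : Finset ι) (v : ι → EuclideanSpace ℝ (Fin n)) :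
    linForm (∑ i ∈ s, v i) = ∑ i ∈ s, linForm (v i) := by
  simp only [linForm, WithLp.ofLp_sum, Finset.sum_apply, map_sum, Finset.sum_mul]
  rw [Finset.sum_comm]

/-- Multinomial expansion of the `d`-th power of a linear combination. -/
lemma expand {n t : ℕ} (d : ℕ) (v : Fin t → EuclideanSpace ℝ (Fin n)) (g : Fin t → ℝ) :
    (linForm (∑ j, g j • v j)) ^ d = ∑ c : Sym (Fin t) d,
      MvPolynomial.C (((c : Multiset (Fin t)).countPerms : ℝ) *
        ((c : Multiset (Fin t)).map g).prod) *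
          ((c : Multiset (Fin t)).map (fun j => linForm (v j))).prod := by
  rw [linForm_sum, Finset.sum_pow, Finset.sym_univ]
  refine Finset.sum_congr rfl fun c _ => ?_
  simp only [linForm_smul, Multiset.prod_map_mul, map_mul, map_natCast]
  rw [mul_assoc]
  congr 2
  rw [map_multiset_prod, Multiset.map_map]
  rfl

lemma coeff_rel {n t : ℕ} (d : ℕ) (v : Fin 2 → Fin t → EuclideanSpace ℝ (Fin n))
    (g : Fin 2 → Fin t → ℝ) (hg : ∑ j, g 0 j • v 0 j + ∑ j, g 1 j • v 1 j = 0) :
    Matrix.mulVec (monMatrix d v) (fun c =>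
      (if c.1 = 0 then (1 : ℝ) else -(-1) ^ d) * ((c.2 : Multiset (Fin t)).countPerms *
        ((c.2 : Multiset (Fin t)).map (g c.1)).prod)) = 0 := by
  have h0 := expand d (v 0) (g 0)
  have h1 := expand d (v 1) (g 1)
  have hneg : ∑ j, g 0 j • v 0 j = (-1 : ℝ) • ∑ j, g 1 j • v 1 j := by
    rw [neg_one_smul]; exact eq_neg_of_add_eq_zero_left hg
  have h2 : (linForm (∑ j, g 0 j • v 0 j)) ^ d
      - MvPolynomial.C ((-1 : ℝ) ^ d) * (linForm (∑ j, g 1 j • v 1 j)) ^ d = 0 := by
    rw [hneg, linForm_smul, mul_pow, map_pow, sub_self]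
  funext r
  have h3 := congrArg (MvPolynomial.coeff (Multiset.toFinsupp (r : Multiset (Fin n)))) h2
  rw [h0, h1] at h3
  simp only [MvPolynomial.coeff_sub, MvPolynomial.coeff_sum, MvPolynomial.coeff_C_mul,
    MvPolynomial.coeff_zero] at h3
  simp only [Matrix.mulVec, dotProduct, monMatrix, Fintype.sum_prod_type, Fin.sum_univ_two,
    Pi.zero_apply]
  rw [← h3, sub_eq_add_neg]
  congr 1
  · refine Finset.sum_congr rfl fun c _ => ?_
    simp
    ring
  · rw [Finset.mul_sum, ← Finset.sum_neg_distrib]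
    refine Finset.sum_congr rfl fun c _ => ?_
    simp
    ring

/-- If `n < 2 t`, the `2 * C(t+d-1, d)` columns of two blocks are always dependent, so that the
smallest singular value vanishes. -/
theorem sigma_eq_zero {n t : ℕ} (d : ℕ) (h : n < 2 * t)
    (v : Fin 2 → Fin t → EuclideanSpace ℝ (Fin n)) :
    sigma (2 * (t + d - 1).choose d) (monMatrix d v) = 0 := by
  -- a relation between the `2 t` vectors
  have hdep : ¬ LinearIndependent ℝ (fun p : Fin 2 × Fin t => v p.1 p.2) := by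
    intro hli
    have := hli.fintype_card_le_finrank
    simp at this
    omega
  obtain ⟨g, hg, ⟨i, j⟩, hij⟩ := Fintype.not_linearIndependent_iff.mp hdep
  have hg' : ∑ j, g (0, j) • v 0 j + ∑ j, g (1, j) • v 1 j = 0 := by
    rw [Fintype.sum_prod_type, Fin.sum_univ_two] at hg
    exact hg
  have hrel := coeff_rel d v (fun i j => g (i, j)) hg'
  set x : Fin 2 × Sym (Fin t) d → ℝ := fun c =>
      (if c.1 = 0 then (1 : ℝ) else -(-1) ^ d) * ((c.2 : Multiset (Fin t)).countPerms *
        ((c.2 : Multiset (Fin t)).map (fun j => g (c.1, j))).prod) with hx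
  have hxne : x ≠ 0 := by
    intro h0
    have := congrFun h0 (i, Sym.replicate d j)
    simp only [hx, Pi.zero_apply, mul_eq_zero] at this
    rcases this with h1 | h1 | h1
    · fin_cases i
      · simp at h1
      · simp at h1
    · have : (0 : ℕ) < (Sym.replicate d j : Multiset (Fin t)).countPerms := by
        rw [Multiset.countPerms, Finsupp.multinomial_eq]
        exact Nat.multinomial_pos _ _
      exact absurd h1 (by positivity)
    · simp [Sym.coe_replicate] at h1
      exact hij h1.1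
  have hcard : Fintype.card (Fin 2 × Sym (Fin t) d) = 2 * (t + d - 1).choose d := by
    rw [Fintype.card_prod, Sym.card_sym_eq_choose]
    simp
  have hker : LinearMap.ker (Matrix.toEuclideanLin (monMatrix d v)) ≠ ⊥ := by
    intro hb
    have : (WithLp.toLp 2 x : EuclideanSpace ℝ (Fin 2 × Sym (Fin t) d)) ∈
        LinearMap.ker (Matrix.toEuclideanLin (monMatrix d v)) := by
      rw [LinearMap.mem_ker, Matrix.toLpLin_toLp, Matrix.toLin'_apply, hrel]
      rfl
    rw [hb] at this
    apply hxne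
    have h2 := (Submodule.mem_bot ℝ).mp this
    simpa using congrArg WithLp.ofLp h2
  unfold sigma
  rw [LinearMap.singularValues_eq_zero_iff_le_finrank_range]
  have hrn := LinearMap.finrank_range_add_finrank_ker (Matrix.toEuclideanLin (monMatrix d v))
  have hpos : 0 < Module.finrank ℝ (LinearMap.ker (Matrix.toEuclideanLin (monMatrix d v))) := by
    rw [Nat.pos_iff_ne_zero]
    intro h0
    exact hker (Submodule.finrank_eq_zero.mp h0)
  rw [finrank_euclideanSpace, hcard] at hrn
  omega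

/-! ### The dimension condition -/

lemma choose_eq (m d : ℕ) (hm : 1 ≤ m) :
    (((m + d - 1).choose d : ℕ) : ℝ) = (∏ i ∈ Finset.range d, ((m : ℝ) + i)) / d.factorial := by
  obtain ⟨k, rfl⟩ : ∃ k, m = k + 1 := ⟨m - 1, by omega⟩
  have h := Nat.ascFactorial_eq_factorial_mul_choose k d
  rw [Nat.ascFactorial_eq_prod_range] at h
  have h2 : k + 1 + d - 1 = k + d := by omega
  rw [h2, eq_div_iff (by positivity)]
  have h3 := congrArg (Nat.cast (R := ℝ)) h
  push_cast at h3
  push_cast
  rw [h3]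
  ring

lemma dim_condition (d : ℕ) (δ : ℝ) (hδ : δ < 1 - 2 / 2 ^ d) :
    ∃ n₁ : ℕ, ∀ n : ℕ, n₁ ≤ n → 1 ≤ n →
      ((2 * ((n / 2 + 1) + d - 1).choose d : ℕ) : ℝ) ≤ (1 - δ) * ((n + d - 1).choose d : ℕ) := by
  have hlim : Filter.Tendsto (fun n : ℕ => 2 * ∏ i ∈ Finset.range d,
      (1 / 2 + (1 + (i : ℝ) / 2) / ((n : ℝ) + i))) Filter.atTop
      (nhds (2 * ∏ i ∈ Finset.range d, (1 / 2 + 0 : ℝ))) := by
    refine Filter.Tendsto.const_mul _ (tendsto_finsetProd _ fun i _ => ?_)
    refine Filter.Tendsto.const_add _ ?_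
    exact tendsto_const_nhds.div_atTop
      (Filter.tendsto_atTop_add_const_right _ _ tendsto_natCast_atTop_atTop)
  have hval : 2 * ∏ i ∈ Finset.range d, (1 / 2 + 0 : ℝ) < 1 - δ := by
    simp only [add_zero, Finset.prod_const, Finset.card_range]
    have : (2 : ℝ) * (1 / 2) ^ d = 2 / 2 ^ d := by
      rw [div_pow, one_pow]; ring
    linarith
  obtain ⟨n₁, hn₁⟩ := Filter.eventually_atTop.mp (hlim.eventually_lt_const hval)
  refine ⟨n₁, fun n hn h1 => ?_⟩
  have h := hn₁ n hn
  have hnpos : (0 : ℝ) < n := by exact_mod_cast h1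
  push_cast
  rw [choose_eq _ _ (by omega), choose_eq _ _ h1]
  have hprodpos : 0 < ∏ i ∈ Finset.range d, ((n : ℝ) + i) :=
    Finset.prod_pos fun i _ => by positivity
  have hle : ∏ i ∈ Finset.range d, (((n / 2 + 1 : ℕ) : ℝ) + i) ≤
      (∏ i ∈ Finset.range d, (1 / 2 + (1 + (i : ℝ) / 2) / ((n : ℝ) + i))) *
        ∏ i ∈ Finset.range d, ((n : ℝ) + i) := by
    rw [← Finset.prod_mul_distrib]
    refine Finset.prod_le_prod (fun i _ => by positivity) fun i _ => ?_
    have hi : (0 : ℝ) < (n : ℝ) + i := by positivity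
    have hfl : ((n / 2 : ℕ) : ℝ) ≤ (n : ℝ) / 2 := by
      have := Nat.cast_div_le (α := ℝ) (m := n) (n := 2)
      simpa using this
    push_cast
    rw [add_mul, div_mul_cancel₀ _ hi.ne']
    linarith
  have hfac : (0 : ℝ) < d.factorial := by positivity
  rw [mul_div_assoc', mul_div_assoc', div_le_div_iff_of_pos_right hfac]
  calc 2 * ∏ i ∈ Finset.range d, (((n / 2 + 1 : ℕ) : ℝ) + i)
      ≤ 2 * ((∏ i ∈ Finset.range d, (1 / 2 + (1 + (i : ℝ) / 2) / ((n : ℝ) + i))) *
        ∏ i ∈ Finset.range d, ((n : ℝ) + i)) := by linarith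
    _ = (2 * ∏ i ∈ Finset.range d, (1 / 2 + (1 + (i : ℝ) / 2) / ((n : ℝ) + i))) *
        ∏ i ∈ Finset.range d, ((n : ℝ) + i) := by ring
    _ ≤ (1 - δ) * ∏ i ∈ Finset.range d, ((n : ℝ) + i) :=
        mul_le_mul_of_nonneg_right h.le hprodpos.le

/-- For every `d ≥ 2` and every `0 < δ < 1 - 2^(1-d)` the asserted bound is false. -/
theorem result (d : ℕ) (_hd : 2 ≤ d) (δ : ℝ) (_hδ0 : 0 < δ) (hδ1 : δ < 1 - 2 / 2 ^ d) :
    ¬ SmoothedBound d δ := by
  rintro ⟨C, hC⟩
  obtain ⟨n₀, hn₀⟩ := hC (1 / 2) (by norm_num)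
  obtain ⟨n₁, hn₁⟩ := dim_condition d δ hδ1
  set n : ℕ := max 2 (max n₀ n₁) with hn
  have h2 : 2 ≤ n := le_max_left _ _
  have hnn₀ : n₀ ≤ n := le_trans (le_max_left _ _) (le_max_right _ _)
  have hnn₁ : n₁ ≤ n := le_trans (le_max_right _ _) (le_max_right _ _)
  have htn : n / 2 + 1 ≤ n := by omega
  -- any orthonormal frames
  let P : Fin 2 → Fin (n / 2 + 1) → EuclideanSpace ℝ (Fin n) := fun _ j =>
    EuclideanSpace.basisFun (Fin n) ℝ (Fin.castLE htn j)
  have hP : ∀ i, Orthonormal ℝ (P i) := fun i =>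
    (EuclideanSpace.basisFun (Fin n) ℝ).orthonormal.comp _ (Fin.castLE_injective htn)
  have h := hn₀ n (n / 2 + 1) 2 hnn₀ (by omega) htn (by norm_num) (hn₁ n hnn₁ (by omega))
    1 one_pos le_rfl P hP
  have hempty : {G : Fin 2 → Fin (n / 2 + 1) → Fin n → ℝ | ((1 : ℝ) / n) ^ C ≤
      sigma (2 * (n / 2 + 1 + d - 1).choose d) (monMatrix d (frame P G))} = ∅ := by
    ext G
    simp only [Set.mem_ofPred_eq, Set.mem_empty_iff_false, iff_false, not_le]
    rw [sigma_eq_zero d (by omega)]
    have : (0 : ℝ) < n := by exact_mod_cast (by omega : 0 < n)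
    positivity
  rw [hempty] at h
  simp at h
  norm_num at h

end Pool.Agent.Results.MP_21e226_pr.CommonPower
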